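import Mathlib

namespace Pool.Agent.Results.MP_6850eb_nt.Collision

/-- s a 1 = a, s a (2k) = 2 s a k + 2, s a (2k+1) = 3 s a k + 3 for k ≥ 1
(the value at n = 0 is irrelevant). -/
def s (a : ℤ) (n : ℕ) : ℤ :=
  if n ≤ 1 then a
  else if n % 2 = 0 then 2 * s a (n / 2) + 2
  else 3 * s a (n / 2) + 3
termination_by n
decreasing_by all_goals omega

theorem s_one (a : ℤ) : s a 1 = a := by rw [s]; simp

theorem s_even (a : ℤ) (k : ℕ) (hk : 1 ≤ k) : s a (2 * k) = 2 * s a k + 2 := by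
  rw [s, if_neg (by omega), if_pos (by omega)]
  congr 3
  omega

theorem s_odd (a : ℤ) (k : ℕ) (hk : 1 ≤ k) : s a (2 * k + 1) = 3 * s a k + 3 := by
  rw [s, if_neg (by omega), if_neg (by omega)]
  congr 3
  omega

theorem result :
    ∃ a : ℤ, 2 < a ∧ ∃ m n : ℕ, 1 ≤ m ∧ 1 ≤ n ∧ m ≠ n ∧ s a m = s a n := by
  refine ⟨3, by norm_num, 21504, 2043, by norm_num, by norm_num, by norm_num, ?_⟩
  have h1 : s 3 21504 = 177150 := by
    repeat (rw [s]; norm_num)
  have h2 : s 3 2043 = 177150 := by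
    repeat (rw [s]; norm_num)
  rw [h1, h2]

end Pool.Agent.Results.MP_6850eb_nt.Collision
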